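import Pool.Agent.L0h73.DI.Inst
import Pool.Agent.L0h73.LT.LO

set_option autoImplicit false

/-! # How often does the result of a test depend on the question? -/

namespace Pool.Agent.L0h73.DI

open Finset Pool.Agent.L0h23.AD Pool.Agent.L0h73.LT

variable {n : ℕ}

/-- the result of the test depends on the question -/
def Alive (T : Test n) (z : Fin n × Fin n → Bool) (i₀ : Fin n) (ω : Om n) : Prop :=
  ∃ y y', T.eval (inp z i₀ ω y) ≠ T.eval (inp z i₀ ω y')

/-- the part of the sum which comes from the junk -/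
noncomputable def jf (T : Test n) (i₀ : Fin n) (m : Fin n → Bool) (i : Fin n) (v : Bits n) : ℝ :=
  if i = i₀ then 0 else T.part i (junk (m i) v)

theorem sum_inp (T : Test n) (z : Fin n × Fin n → Bool) (i₀ : Fin n) (ω : Om n)
    (y : Fin n × Fin n) :
    ∑ i, T.part i (inp z i₀ ω y (some i)) = ∑ i, jf T i₀ ω.1 i (ω.2 i) + T.part i₀ (qu y) := by
  classical
  rw [← Finset.add_sum_erase univ _ (mem_univ i₀), ← Finset.add_sum_erase univ (fun i =>
    jf T i₀ ω.1 i (ω.2 i)) (mem_univ i₀)]
  have h1 : inp z i₀ ω y (some i₀) = qu y := by simp [inp]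
  have h2 : jf T i₀ ω.1 i₀ (ω.2 i₀) = 0 := by simp [jf]
  have h3 : ∑ i ∈ univ.erase i₀, T.part i (inp z i₀ ω y (some i)) =
      ∑ i ∈ univ.erase i₀, jf T i₀ ω.1 i (ω.2 i) := by
    apply sum_congr rfl
    intro i hi
    have hne := ne_of_mem_erase hi
    simp [inp, jf, hne]
  rw [h1, h2, h3]
  ring

theorem eval_inp (T : Test n) (z : Fin n × Fin n → Bool) (i₀ : Fin n) (ω : Om n)
    (y : Fin n × Fin n) :
    T.eval (inp z i₀ ω y) = decide (T.θ (bm i₀ z) <
      ∑ i, jf T i₀ ω.1 i (ω.2 i) + T.part i₀ (qu y)) := by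
  unfold Test.eval
  rw [sum_inp]
  rfl

/-- the differences -/
def del (T : Test n) (i : Fin n) : Fin n ⊕ Fin n → ℝ
  | .inl k => T.a i (.inl k)
  | .inr j => - T.a i (.inr j)

/-- the basic value -/
noncomputable def base (T : Test n) (i : Fin n) : ℝ := ∑ j, T.a i (.inr j)

theorem part_qu (T : Test n) (i : Fin n) (y : Fin n × Fin n) :
    T.part i (qu y) = base T i + del T i (.inl y.1) + del T i (.inr y.2) := by
  unfold Test.part qu base del
  rw [Fintype.sum_sum_type]
  have h1 : ∑ k, (if decide (k = y.1) = true then T.a i (.inl k) else 0) = T.a i (.inl y.1) := by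
    simp
  have h2 : ∑ j, (if decide (j ≠ y.2) = true then T.a i (.inr j) else 0) =
      ∑ j, T.a i (.inr j) - T.a i (.inr y.2) := by
    rw [eq_sub_iff_add_eq]
    have h3 : T.a i (.inr y.2) = ∑ j, (if j = y.2 then T.a i (.inr j) else 0) := by simp
    rw [h3, ← sum_add_distrib]
    apply sum_congr rfl
    intro j _
    by_cases h : j = y.2
    · simp [h]
    · simp [h]
  dsimp only
  rw [h1, h2]
  ring

theorem part_junk_true (T : Test n) (i : Fin n) (v : Bits n) :
    T.part i (junk true v) = base T i + ∑ k, (if v.1 k = true then T.a i (.inl k) else 0) := by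
  unfold Test.part junk base
  rw [Fintype.sum_sum_type]
  simp only [if_true]
  ring

theorem part_junk_false (T : Test n) (i : Fin n) (v : Bits n) :
    T.part i (junk false v) = ∑ k, T.a i (.inl k) +
      ∑ j, (if v.2 j = true then T.a i (.inr j) else 0) := by
  unfold Test.part junk
  rw [Fintype.sum_sum_type]
  simp only [Bool.false_eq_true, if_false, if_true]

/-- change one bit -/
def flip (k : Fin n) : Equiv.Perm (Fin n → Bool) where
  toFun v := Function.update v k (!v k)
  invFun v := Function.update v k (!v k)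
  left_inv v := by simp
  right_inv v := by simp

theorem sum_flip (a : Fin n → ℝ) (v : Fin n → Bool) (k : Fin n) :
    |∑ k', (if flip k v k' = true then a k' else 0) - ∑ k', (if v k' = true then a k' else 0)| =
      |a k| := by
  rw [← sum_sub_distrib, sum_eq_single k]
  · simp only [flip, Equiv.coe_fn_mk, Function.update_self]
    cases v k <;> simp
  · intro b _ hb
    simp [flip, Function.update_of_ne hb]
  · intro h
    exact absurd (mem_univ _) h

/-- the mode in which the weight is random -/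
def mode {n : ℕ} : Fin n ⊕ Fin n → Bool
  | .inl _ => true
  | .inr _ => false

/-- change one bit -/
def sg : Fin n ⊕ Fin n → Equiv.Perm (Bits n)
  | .inl k => (flip k).prodCongr (Equiv.refl _)
  | .inr j => (Equiv.refl _).prodCongr (flip j)

theorem jump (T : Test n) (i : Fin n) (e : Fin n ⊕ Fin n) (v : Bits n) :
    |T.part i (junk (mode e) (sg e v)) - T.part i (junk (mode e) v)| = |del T i e| := by
  cases e with
  | inl k =>
    simp only [mode]
    rw [part_junk_true, part_junk_true]
    have h := sum_flip (fun k => T.a i (.inl k)) v.1 k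
    have e1 : del T i (.inl k) = T.a i (.inl k) := rfl
    rw [e1, ← h]
    congr 1
    have : ∀ k', (sg (.inl k) v).1 k' = flip k v.1 k' := fun k' => rfl
    simp only [this]
    ring
  | inr k =>
    simp only [mode]
    rw [part_junk_false, part_junk_false]
    have h := sum_flip (fun k => T.a i (.inr k)) v.2 k
    have e1 : del T i (.inr k) = - T.a i (.inr k) := rfl
    rw [e1, abs_neg, ← h]
    congr 1
    have : ∀ k', (sg (.inr k) v).2 k' = flip k v.2 k' := fun k' => rfl
    simp only [this]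
    ring

open Classical in
theorem alive_one (T : Test n) (z : Fin n × Fin n → Bool) (i₀ : Fin n) (m : Fin n → Bool)
    (e : Fin n → Fin n ⊕ Fin n) (he : ∀ i e', |del T i e'| ≤ |del T i (e i)|)
    (hd : 0 < |del T i₀ (e i₀)|) (I : Finset (Fin n))
    (hI : ∀ i ∈ I, i ≠ i₀ ∧ m i = mode (e i) ∧ |del T i₀ (e i₀)| ≤ |del T i (e i)|) :
    ((univ.filter (fun v : Fin n → Bits n => Alive T z i₀ (m, v))).card : ℝ) ≤
      4 * (1 / √((I.card : ℝ) + 1)) * Fintype.card (Fin n → Bits n) := by
  set C : ℝ := ((Fintype.card (Fin n → Bits n) : ℕ) : ℝ) with hC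
  set d : ℝ := |del T i₀ (e i₀)| with hd'
  -- the largest value
  obtain ⟨y₀, -, hy₀⟩ := exists_max_image (univ : Finset (Fin n × Fin n))
    (fun y => T.part i₀ (qu y)) ⟨(i₀, i₀), mem_univ _⟩
  have hrange : ∀ y y', T.part i₀ (qu y) - T.part i₀ (qu y') ≤ 4 * d := by
    intro y y'
    rw [part_qu, part_qu]
    have h1 := abs_le.1 (he i₀ (.inl y.1))
    have h2 := abs_le.1 (he i₀ (.inr y.2))
    have h3 := abs_le.1 (he i₀ (.inl y'.1))
    have h4 := abs_le.1 (he i₀ (.inr y'.2))
    linarith [h1.2, h2.2, h3.1, h4.1]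
  set p : ℝ := T.θ (bm i₀ z) - T.part i₀ (qu y₀) with hp
  have hsub : (univ.filter (fun v : Fin n → Bits n => Alive T z i₀ (m, v))) ⊆
      (range 4).biUnion (fun l => univ.filter (fun v : Fin n → Bits n =>
        p + l * d < ∑ i, jf T i₀ m i (v i) ∧ ∑ i, jf T i₀ m i (v i) ≤ (p + l * d) + d)) := by
    intro v hv
    rw [mem_filter] at hv
    obtain ⟨-, y, y', hne⟩ := hv
    have h1 : ∃ y y', T.eval (inp z i₀ (m, v) y) = true ∧ T.eval (inp z i₀ (m, v) y') = false := by
      cases h2 : T.eval (inp z i₀ (m, v) y) <;> cases h3 : T.eval (inp z i₀ (m, v) y')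
      · rw [h2, h3] at hne; exact absurd rfl hne
      · exact ⟨y', y, h3, h2⟩
      · exact ⟨y, y', h2, h3⟩
      · rw [h2, h3] at hne; exact absurd rfl hne
    obtain ⟨y, y', h2, h3⟩ := h1
    rw [eval_inp, decide_eq_true_iff] at h2
    rw [eval_inp, decide_eq_false_iff_not, not_lt] at h3
    dsimp only at h2 h3
    set G := ∑ i, jf T i₀ m i (v i) with hG
    have h4 : T.part i₀ (qu y) ≤ T.part i₀ (qu y₀) := hy₀ y (mem_univ _)
    have h5 := hrange y₀ y'
    have h6 : p < G := by rw [hp]; linarith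
    have h7 : G ≤ p + 4 * d := by rw [hp]; linarith
    -- the index
    set l := ⌈(G - p) / d⌉₊ with hl
    have h8 : 0 < (G - p) / d := div_pos (by linarith) hd
    have h9 : 0 < l := Nat.ceil_pos.2 h8
    have h10 : l ≤ 4 := by
      rw [hl, Nat.ceil_le, div_le_iff₀ hd]
      push_cast
      linarith
    have h11 : (G - p) / d ≤ l := Nat.le_ceil _
    have h12 : ((l - 1 : ℕ) : ℝ) < (G - p) / d := by
      have : l - 1 < ⌈(G - p) / d⌉₊ := by omega
      exact Nat.lt_ceil.1 this
    rw [div_le_iff₀ hd] at h11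
    rw [lt_div_iff₀ hd] at h12
    have h13 : ((l - 1 : ℕ) : ℝ) = (l : ℝ) - 1 := by
      rw [Nat.cast_sub (by omega)]; simp
    rw [mem_biUnion]
    refine ⟨l - 1, mem_range.2 (by omega), ?_⟩
    rw [mem_filter]
    refine ⟨mem_univ _, by linarith, ?_⟩
    rw [h13]
    linarith
  have h1 : ((univ.filter (fun v : Fin n → Bits n => Alive T z i₀ (m, v))).card : ℝ) ≤
      ∑ l ∈ range 4, ((univ.filter (fun v : Fin n → Bits n =>
        p + l * d < ∑ i, jf T i₀ m i (v i) ∧
          ∑ i, jf T i₀ m i (v i) ≤ (p + l * d) + d)).card : ℝ) := by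
    have h2 := (card_le_card hsub).trans card_biUnion_le
    exact_mod_cast h2
  have h2 : ∀ l ∈ range 4, ((univ.filter (fun v : Fin n → Bits n =>
        p + l * d < ∑ i, jf T i₀ m i (v i) ∧
          ∑ i, jf T i₀ m i (v i) ≤ (p + l * d) + d)).card : ℝ) ≤
      (1 / √((I.card : ℝ) + 1)) * C := by
    intro l _
    have h3 := littlewood_offord (jf T i₀ m) (fun i => sg (e i)) I (d := d) (p := p + l * d) (by
      intro i hi w
      obtain ⟨h4, h5, h6⟩ := hI i hi
      unfold jf
      rw [if_neg h4, if_neg h4, h5, jump]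
      exact h6)
    have h4 : ((univ.filter (fun v : Fin n → Bits n =>
        p + l * d < ∑ i, jf T i₀ m i (v i) ∧
          ∑ i, jf T i₀ m i (v i) ≤ (p + l * d) + d)).card : ℝ) * 2 ^ I.card ≤
        (I.card.choose (I.card / 2) : ℝ) * C := by
      rw [hC]
      exact_mod_cast h3
    have h5 := choose_half_le I.card
    have h6 : (0 : ℝ) < 2 ^ I.card := by positivity
    have hC0 : 0 ≤ C := Nat.cast_nonneg _
    calc _ ≤ (I.card.choose (I.card / 2) : ℝ) * C / 2 ^ I.card := by
          rw [le_div_iff₀ h6]; exact h4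
      _ = (I.card.choose (I.card / 2) : ℝ) / 2 ^ I.card * C := by ring
      _ ≤ _ := mul_le_mul_of_nonneg_right h5 hC0
  calc _ ≤ _ := h1
    _ ≤ ∑ _l ∈ range 4, (1 / √((I.card : ℝ) + 1)) * C := sum_le_sum h2
    _ = _ := by rw [sum_const, card_range, nsmul_eq_mul]; push_cast; ring

end Pool.Agent.L0h73.DI
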