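import Pool.Agent.L0h73.DI.Code

set_option autoImplicit false

/-! # The lower bound for general programs -/

namespace Pool.Agent.L0h73.DI

open Finset Pool.Agent.L0h23.AD Pool.Agent.TH697.Form Pool.Agent.TH697.Row
open Pool.Agent.L0h73.LT (FewSub)

variable {n s : ℕ}

open Classical in
theorem average {D : ℕ} (hn : 300 ≤ n) (hD : 1 ≤ D)
    {Ω : Type} [Fintype Ω] (μ : Ω → ℝ) (hμ : IsProb μ) (P : Ω → Circuit n s)
    (hP : ∀ r, FewSub D (P r).top)
    (hA : ApproximatesOn μ (fun r => (P r).eval) (fun _ => True) (diamThree n)) :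
    (n : ℝ) * ((47 / 600 : ℝ) * ((n * n : ℕ) : ℝ) * Real.log 2) ≤ n * Real.log (3 * D) +
      Real.log (((s : ℝ) + 1) * D * ((n * n : ℕ) + 1)) *
        (∑ r, μ r * (n * (P r).upper + 16 * (P r).sqrtSupp)) := by
  set N : ℝ := ((n * n : ℕ) : ℝ) with hN
  set C : ℝ := ((Fintype.card (Om n) : ℕ) : ℝ) with hC
  set LW : ℝ := Real.log (((s : ℝ) + 1) * D * (N + 1)) with hLW
  have hCpos : 0 < C := by
    rw [hC]
    have : Nonempty (Om n) := ⟨(fun _ => true, fun _ => (fun _ => true, fun _ => true))⟩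
    exact_mod_cast Fintype.card_pos
  have hD' : (1 : ℝ) ≤ D := by exact_mod_cast hD
  have hN0 : 0 ≤ N := Nat.cast_nonneg _
  have hLW0 : 0 ≤ LW := by
    apply Real.log_nonneg
    have h1 : (1 : ℝ) ≤ (s : ℝ) + 1 := by
      have : (0 : ℝ) ≤ (s : ℝ) := Nat.cast_nonneg _
      linarith
    exact one_le_mul_of_one_le_of_one_le (one_le_mul_of_one_le_of_one_le h1 hD') (by linarith)
  have hlog2 : 0 ≤ Real.log 2 := Real.log_nonneg (by norm_num)
  set E : Ω → Fin n → (Om n) → (Fin n × Fin n → Bool) → ℝ :=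
    fun r i₀ ω z => ((univ.filter (fun y => (P r).eval (inp z i₀ ω y) ≠ z y)).card : ℝ) with hE
  set B : Ω → Fin n → (Om n) → (Fin n × Fin n → Bool) → ℝ :=
    fun r i₀ ω z => ((univ.filter (fun t => Live (P r) z i₀ ω t)).card : ℝ) with hB
  -- errors
  have hX : ∀ i₀ ω z, ∑ r, μ r * E r i₀ ω z ≤ N / 3 + n := by
    intro i₀ ω z
    have h1 : ∀ r, μ r * E r i₀ ω z = ∑ y : Fin n × Fin n,
        if (P r).eval (inp z i₀ ω y) ≠ z y then μ r else 0 := by
      intro r
      simp only [hE]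
      rw [card_filter, Nat.cast_sum, mul_sum]
      apply sum_congr rfl
      intro y _
      split_ifs <;> simp
    rw [sum_congr rfl (fun r _ => h1 r), sum_comm]
    calc ∑ y : Fin n × Fin n, ∑ r, (if (P r).eval (inp z i₀ ω y) ≠ z y then μ r else 0)
        ≤ ∑ y : Fin n × Fin n, ((1 / 3 : ℝ) + if y.1 = i₀ then (1 : ℝ) else 0) := by
          apply sum_le_sum
          intro y _
          by_cases hy : y.1 = i₀
          · rw [if_pos hy]
            have h2 : ∑ r, (if (P r).eval (inp z i₀ ω y) ≠ z y then μ r else 0) ≤ ∑ r, μ r := by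
              apply sum_le_sum
              intro r _
              split_ifs
              · exact le_rfl
              · exact hμ.nonneg r
            rw [hμ.sum_one] at h2
            linarith
          · rw [if_neg hy, add_zero, ← sum_filter, ← diam_inp z i₀ ω y hy]
            exact hA (inp z i₀ ω y) trivial
      _ = N / 3 + n := by
          rw [sum_add_distrib, sum_const, card_univ, Fintype.card_prod, Fintype.card_fin,
            nsmul_eq_mul, hN, ← univ_product_univ, sum_product]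
          have h2 : ∑ x : Fin n, ∑ _y : Fin n, (if x = i₀ then (1 : ℝ) else 0) = n := by
            rw [sum_comm]
            simp
          rw [h2]
          ring
  -- live gates
  have hZ : ∀ r z, ∑ i₀, ∑ ω, B r i₀ ω z ≤ (n * (P r).upper + 16 * (P r).sqrtSupp) * C := by
    intro r z
    have h0 : ∀ i₀ ω, B r i₀ ω z ≤ (P r).upper + ∑ t ∈ univ.filter (fun t => (P r).Bottom t),
        (if Alive ((P r).gate t) z i₀ ω then (1 : ℝ) else 0) := by
      intro i₀ ω
      have h1 : univ.filter (fun t => Live (P r) z i₀ ω t) ⊆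
          univ.filter (fun t => ¬ (P r).Bottom t) ∪
            (univ.filter (fun t => (P r).Bottom t)).filter (fun t => Alive ((P r).gate t) z i₀ ω) := by
        intro t ht
        rw [mem_filter] at ht
        rw [mem_union, mem_filter, mem_filter, mem_filter]
        by_cases hb : (P r).Bottom t
        · right
          refine ⟨⟨mem_univ _, hb⟩, ?_⟩
          rcases ht.2 with h | h
          · exact absurd hb h
          · exact h
        · left
          exact ⟨mem_univ _, hb⟩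
      have h2 := (card_le_card h1).trans (card_union_le _ _)
      have h3 : B r i₀ ω z ≤ ((P r).upper : ℝ) + (((univ.filter (fun t => (P r).Bottom t)).filter
          (fun t => Alive ((P r).gate t) z i₀ ω)).card : ℝ) := by
        simp only [hB]
        exact_mod_cast h2
      rw [card_filter] at h3
      push_cast at h3
      exact h3
    calc ∑ i₀, ∑ ω, B r i₀ ω z
        ≤ ∑ i₀ : Fin n, ∑ ω : Om n, (((P r).upper : ℝ) +
          ∑ t ∈ univ.filter (fun t => (P r).Bottom t),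
            (if Alive ((P r).gate t) z i₀ ω then (1 : ℝ) else 0)) :=
          sum_le_sum fun i₀ _ => sum_le_sum fun ω _ => h0 i₀ ω
      _ = n * C * (P r).upper + ∑ t ∈ univ.filter (fun t => (P r).Bottom t), ∑ i₀ : Fin n,
          ((univ.filter (fun ω => Alive ((P r).gate t) z i₀ ω)).card : ℝ) := by
          simp only [sum_add_distrib]
          rw [sum_const, sum_const, card_univ, card_univ, Fintype.card_fin, nsmul_eq_mul,
            nsmul_eq_mul]
          congr 1
          · ring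
          · rw [sum_comm (s := univ.filter (fun t => (P r).Bottom t))]
            apply sum_congr rfl
            intro i₀ _
            rw [sum_comm]
            apply sum_congr rfl
            intro t _
            rw [card_filter, Nat.cast_sum]
            push_cast
            rfl
      _ ≤ n * C * (P r).upper + ∑ t ∈ univ.filter (fun t => (P r).Bottom t),
          16 * √(((P r).gate t).supp : ℝ) * C := by
          apply add_le_add_right
          exact sum_le_sum fun t _ => alive_count ((P r).gate t) z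
      _ = _ := by
          unfold Circuit.sqrtSupp
          rw [← sum_mul, ← mul_sum]
          ring
  -- the sum of all the inequalities
  have h1 : ∀ r, (n : ℝ) * C * (N * Real.log (4 / 3)) ≤ n * C * Real.log (3 * D) +
      (Real.log 2 * ∑ z, ∑ i₀, ∑ ω, E r i₀ ω z + LW * ∑ z, ∑ i₀, ∑ ω, B r i₀ ω z) / 2 ^ (n * n) := by
    intro r
    have h2 : ∑ i₀ : Fin n, ∑ ω : Om n, N * Real.log (4 / 3) ≤
        ∑ i₀ : Fin n, ∑ ω : Om n, (Real.log (3 * D) +
          (∑ z, (Real.log 2 * E r i₀ ω z + LW * B r i₀ ω z)) / 2 ^ (n * n)) :=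
      sum_le_sum fun i₀ _ => sum_le_sum fun ω _ => fixed (P r) hD (hP r) i₀ ω
    have e1 : ∑ i₀ : Fin n, ∑ ω : Om n, N * Real.log (4 / 3) =
        (n : ℝ) * C * (N * Real.log (4 / 3)) := by
      rw [sum_const, sum_const, card_univ, card_univ, Fintype.card_fin, nsmul_eq_mul, nsmul_eq_mul]
      ring
    have e2 : ∑ i₀ : Fin n, ∑ ω : Om n, (Real.log (3 * D) +
          (∑ z, (Real.log 2 * E r i₀ ω z + LW * B r i₀ ω z)) / 2 ^ (n * n)) =
        n * C * Real.log (3 * D) +
      (Real.log 2 * ∑ z, ∑ i₀, ∑ ω, E r i₀ ω z + LW * ∑ z, ∑ i₀, ∑ ω, B r i₀ ω z) / 2 ^ (n * n) := by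
      simp only [sum_add_distrib, ← sum_div, ← mul_sum]
      rw [sum_const, sum_const, card_univ, card_univ, Fintype.card_fin, nsmul_eq_mul, nsmul_eq_mul]
      have e3 : ∀ G : Fin n → (Om n) → (Fin n × Fin n → Bool) → ℝ,
          ∑ i₀, ∑ ω, ∑ z, G i₀ ω z = ∑ z, ∑ i₀, ∑ ω, G i₀ ω z := by
        intro G
        calc ∑ i₀, ∑ ω, ∑ z, G i₀ ω z = ∑ i₀, ∑ z, ∑ ω, G i₀ ω z :=
              sum_congr rfl fun i₀ _ => sum_comm
          _ = _ := sum_comm
      rw [e3 (fun i₀ ω z => E r i₀ ω z), e3 (fun i₀ ω z => B r i₀ ω z)]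
      ring
    rw [e1, e2] at h2
    exact h2
  have h2 : ∑ r, μ r * ((n : ℝ) * C * (N * Real.log (4 / 3))) ≤ ∑ r, μ r *
      (n * C * Real.log (3 * D) +
      (Real.log 2 * ∑ z, ∑ i₀, ∑ ω, E r i₀ ω z + LW * ∑ z, ∑ i₀, ∑ ω, B r i₀ ω z) / 2 ^ (n * n)) :=
    sum_le_sum fun r _ => mul_le_mul_of_nonneg_left (h1 r) (hμ.nonneg r)
  rw [← sum_mul, hμ.sum_one, one_mul] at h2
  have e1 : ∑ r, μ r * (n * C * Real.log (3 * D) +
      (Real.log 2 * ∑ z, ∑ i₀, ∑ ω, E r i₀ ω z + LW * ∑ z, ∑ i₀, ∑ ω, B r i₀ ω z) / 2 ^ (n * n)) =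
      n * C * Real.log (3 * D) + (Real.log 2 * ∑ r, μ r * ∑ z, ∑ i₀, ∑ ω, E r i₀ ω z +
        LW * ∑ r, μ r * ∑ z, ∑ i₀, ∑ ω, B r i₀ ω z) / 2 ^ (n * n) := by
    have e2 : ∀ r, μ r * (n * C * Real.log (3 * D) +
      (Real.log 2 * ∑ z, ∑ i₀, ∑ ω, E r i₀ ω z + LW * ∑ z, ∑ i₀, ∑ ω, B r i₀ ω z) / 2 ^ (n * n)) =
      μ r * (n * C * Real.log (3 * D)) + (Real.log 2 * (μ r * ∑ z, ∑ i₀, ∑ ω, E r i₀ ω z) +
        LW * (μ r * ∑ z, ∑ i₀, ∑ ω, B r i₀ ω z)) / 2 ^ (n * n) := by
      intro r; ring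
    rw [sum_congr rfl (fun r _ => e2 r), sum_add_distrib, ← sum_mul, hμ.sum_one, one_mul,
      ← sum_div, sum_add_distrib, ← mul_sum, ← mul_sum]
  rw [e1] at h2
  have hK : ((2 : ℝ) ^ (n * n)) = ((Fintype.card (Fin n × Fin n → Bool) : ℕ) : ℝ) := by
    rw [Fintype.card_fun, Fintype.card_bool, Fintype.card_prod, Fintype.card_fin]
    push_cast
    rfl
  have hKpos : (0 : ℝ) < 2 ^ (n * n) := by positivity
  have h3 : ∑ r, μ r * ∑ z, ∑ i₀, ∑ ω, E r i₀ ω z ≤ 2 ^ (n * n) * (n * C * (N / 3 + n)) := by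
    have e3 : ∑ r, μ r * ∑ z, ∑ i₀, ∑ ω, E r i₀ ω z = ∑ z, ∑ i₀, ∑ ω, ∑ r, μ r * E r i₀ ω z := by
      simp only [mul_sum]
      rw [sum_comm]
      apply sum_congr rfl
      intro z _
      rw [sum_comm]
      apply sum_congr rfl
      intro i₀ _
      rw [sum_comm]
    rw [e3]
    calc ∑ z : Fin n × Fin n → Bool, ∑ i₀ : Fin n, ∑ ω : Om n,
          ∑ r, μ r * E r i₀ ω z
        ≤ ∑ _z : Fin n × Fin n → Bool, ∑ _i₀ : Fin n, ∑ _ω : Om n, (N / 3 + n) :=
          sum_le_sum fun z _ => sum_le_sum fun i₀ _ => sum_le_sum fun ω _ => hX i₀ ω z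
      _ = _ := by
          rw [sum_const, sum_const, sum_const, card_univ, card_univ, card_univ, nsmul_eq_mul,
            nsmul_eq_mul, nsmul_eq_mul, ← hK, ← hC, Fintype.card_fin]
          ring
  have h4 : ∑ r, μ r * ∑ z, ∑ i₀, ∑ ω, B r i₀ ω z ≤
      2 ^ (n * n) * (C * ∑ r, μ r * (n * (P r).upper + 16 * (P r).sqrtSupp)) := by
    calc ∑ r, μ r * ∑ z, ∑ i₀, ∑ ω, B r i₀ ω z
        ≤ ∑ r, μ r * ∑ _z : Fin n × Fin n → Bool,
            (n * (P r).upper + 16 * (P r).sqrtSupp) * C :=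
          sum_le_sum fun r _ => mul_le_mul_of_nonneg_left (sum_le_sum fun z _ => hZ r z)
            (hμ.nonneg r)
      _ = _ := by
          rw [mul_sum, mul_sum]
          apply sum_congr rfl
          intro r _
          rw [sum_const, card_univ, nsmul_eq_mul, ← hK]
          ring
  have h5 : (Real.log 2 * ∑ r, μ r * ∑ z, ∑ i₀, ∑ ω, E r i₀ ω z +
        LW * ∑ r, μ r * ∑ z, ∑ i₀, ∑ ω, B r i₀ ω z) / 2 ^ (n * n) ≤
      C * (Real.log 2 * (n * (N / 3 + n)) +
        LW * (∑ r, μ r * (n * (P r).upper + 16 * (P r).sqrtSupp))) := by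
    rw [div_le_iff₀ hKpos]
    have h6 := mul_le_mul_of_nonneg_left h3 hlog2
    have h7 := mul_le_mul_of_nonneg_left h4 hLW0
    calc _ ≤ _ := add_le_add h6 h7
      _ = _ := by ring
  have h6 : C * (n * (N * Real.log (4 / 3))) ≤ C * (n * Real.log (3 * D) +
      (Real.log 2 * (n * (N / 3 + n)) +
        LW * (∑ r, μ r * (n * (P r).upper + 16 * (P r).sqrtSupp)))) := by
    calc C * (n * (N * Real.log (4 / 3))) = n * C * (N * Real.log (4 / 3)) := by ring
      _ ≤ _ := h2.trans (add_le_add_right h5 _)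
      _ = _ := by ring
  have h7 := le_of_mul_le_mul_left h6 hCpos
  have h8 := log_43
  have h9 : (n : ℝ) * (N * ((415 / 1000 : ℝ) * Real.log 2)) ≤ n * (N * Real.log (4 / 3)) := by
    apply mul_le_mul_of_nonneg_left _ (Nat.cast_nonneg _)
    exact mul_le_mul_of_nonneg_left h8 hN0
  have hn' : (300 : ℝ) ≤ n := by exact_mod_cast hn
  have hNn : N = (n : ℝ) * n := by rw [hN]; push_cast; ring
  have h10 : (n : ℝ) * (N / 3 + n) ≤ n * (N * (101 / 300 : ℝ)) := by
    apply mul_le_mul_of_nonneg_left _ (Nat.cast_nonneg _)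
    rw [hNn]
    nlinarith
  have h11 := mul_le_mul_of_nonneg_left h10 hlog2
  have e2 : (n : ℝ) * ((47 / 600 : ℝ) * N * Real.log 2) =
      n * (N * ((415 / 1000 : ℝ) * Real.log 2)) - Real.log 2 * (n * (N * (101 / 300 : ℝ))) := by
    ring
  rw [e2]
  linarith

end Pool.Agent.L0h73.DI
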