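import Pool.Agent.L0h73.DI.Tops
import Pool.Agent.L0h73.DI.Main
import Pool.Agent.L0h73.LT.Cor

set_option autoImplicit false

/-! # The number of the gates -/

namespace Pool.Agent.L0h73.DI

open Finset Pool.Agent.L0h23.AD Pool.Agent.TH697.Form Pool.Agent.TH697.Row
open Pool.Agent.L0h73.LT (FewSub)

theorem sqrtSupp_nonneg {n s : ℕ} (C : Circuit n s) : 0 ≤ C.sqrtSupp :=
  sum_nonneg (fun _ _ => Real.sqrt_nonneg _)

theorem main {n s D : ℕ} (hn : 300 ≤ n) (hD : 1 ≤ D)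
    {Ω : Type} [Fintype Ω] (μ : Ω → ℝ) (hμ : IsProb μ) (P : Ω → Circuit n s)
    (hP : ∀ r, FewSub D (P r).top)
    (hA : ApproximatesOn μ (fun r => (P r).eval) (fun _ => True) (diamThree n)) :
    (n : ℝ) ^ 3 ≤ 13 * (n * Real.logb 2 (3 * D) +
      Real.logb 2 (((s : ℝ) + 1) * D * ((n : ℝ) ^ 2 + 1)) *
      ∑ r, μ r * (n * (P r).upper + 16 * (P r).sqrtSupp)) := by
  have hD' : (1 : ℝ) ≤ D := by exact_mod_cast hD
  have hs0 : (0 : ℝ) ≤ (s : ℝ) := Nat.cast_nonneg _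
  have hlog : 0 < Real.log 2 := Real.log_pos (by norm_num)
  have h := average hn hD μ hμ P hP hA
  have hN : ((n * n : ℕ) : ℝ) = (n : ℝ) ^ 2 := by push_cast; ring
  rw [hN] at h
  set S : ℝ := ∑ r, μ r * (n * (P r).upper + 16 * (P r).sqrtSupp) with hS
  have hlb : ∀ x : ℝ, Real.logb 2 x = Real.log x / Real.log 2 := fun x => rfl
  rw [hlb, hlb]
  have hRHS : (n : ℝ) * (Real.log (3 * D) / Real.log 2) +
      Real.log (((s : ℝ) + 1) * D * ((n : ℝ) ^ 2 + 1)) / Real.log 2 * S =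
      (n * Real.log (3 * D) + Real.log (((s : ℝ) + 1) * D * ((n : ℝ) ^ 2 + 1)) * S) /
        Real.log 2 := by
    field_simp
  rw [hRHS]
  have h7 : (47 / 600 : ℝ) * (n : ℝ) ^ 3 ≤
      (n * Real.log (3 * D) + Real.log (((s : ℝ) + 1) * D * ((n : ℝ) ^ 2 + 1)) * S) /
        Real.log 2 := by
    rw [le_div_iff₀ hlog]
    calc (47 / 600 : ℝ) * (n : ℝ) ^ 3 * Real.log 2
        = (n : ℝ) * ((47 / 600 : ℝ) * (n : ℝ) ^ 2 * Real.log 2) := by ring
      _ ≤ _ := h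
  have h8 : (0 : ℝ) ≤ (n : ℝ) ^ 3 := by positivity
  linarith

theorem supp_le {n : ℕ} (T : Test n) : T.supp ≤ n := by
  classical
  unfold Test.supp
  exact (card_le_univ _).trans (by rw [Fintype.card_fin])

theorem sqrtSupp_le {n s : ℕ} (C : Circuit n s) : C.sqrtSupp ≤ s * √(n : ℝ) := by
  classical
  unfold Circuit.sqrtSupp
  calc ∑ j ∈ univ.filter (fun j => C.Bottom j), √((C.gate j).supp : ℝ)
      ≤ ∑ _j : Fin s, √(n : ℝ) := by
        refine (sum_le_sum_of_subset_of_nonneg (filter_subset _ _)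
          (fun _ _ _ => Real.sqrt_nonneg _)).trans ?_
        apply sum_le_sum
        intro j _
        apply Real.sqrt_le_sqrt
        exact_mod_cast supp_le _
    _ = s * √(n : ℝ) := by
        rw [sum_const, card_univ, Fintype.card_fin, nsmul_eq_mul]

theorem log_bounds {n : ℕ} (hn : 1000 ≤ n) :
    9 ≤ Real.logb 2 n ∧ Real.logb 2 n ≤ n := by
  have hn' : (1000 : ℝ) ≤ n := by exact_mod_cast hn
  have hlog : 0 < Real.log 2 := Real.log_pos (by norm_num)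
  constructor
  · rw [Real.le_logb_iff_rpow_le (by norm_num) (by linarith)]
    have : (2 : ℝ) ^ (9 : ℝ) = 512 := by
      rw [show (9 : ℝ) = ((9 : ℕ) : ℝ) by norm_num, Real.rpow_natCast]
      norm_num
    rw [this]
    linarith
  · rw [Real.logb_le_iff_le_rpow (by norm_num) (by linarith), Real.rpow_natCast]
    have h : n < 2 ^ n := Nat.lt_two_pow_self
    exact_mod_cast h.le

theorem mean_bound {n s : ℕ} (hn : 1000 ≤ n) (hs : s ≤ n ^ 3)
    {Ω : Type} [Fintype Ω] (μ : Ω → ℝ) (hμ : IsProb μ) (P : Ω → Circuit n s)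
    (hP : ∀ r, Simple (P r).top)
    (hA : ApproximatesOn μ (fun r => (P r).eval) (fun _ => True) (diamThree n))
    (hU : 600 * Real.logb 2 n * ∑ r, μ r * (P r).upper ≤ (n : ℝ) ^ 2) :
    (n : ℝ) ^ 3 ≤ 4000 * Real.logb 2 n * ∑ r, μ r * (P r).sqrtSupp := by
  obtain ⟨hL, hLn⟩ := log_bounds hn
  have hn' : (1000 : ℝ) ≤ n := by exact_mod_cast hn
  have hn0 : (0 : ℝ) < n := by linarith
  have h := main (by omega) (Nat.one_le_iff_ne_zero.2 (by positivity)) μ hμ P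
    (fun r => few_simple (by omega) _ (hP r)) hA
  set L := Real.logb 2 (n : ℝ) with hLdef
  set U := ∑ r, μ r * ((P r).upper : ℝ) with hUdef
  set Q := ∑ r, μ r * (P r).sqrtSupp with hQdef
  have hsum : ∑ r, μ r * (n * ((P r).upper : ℝ) + 16 * (P r).sqrtSupp) = n * U + 16 * Q := by
    rw [hUdef, hQdef, mul_sum, mul_sum, ← sum_add_distrib]
    apply sum_congr rfl
    intro r _
    ring
  rw [hsum] at h
  have hU0 : 0 ≤ U := sum_nonneg (fun r _ => mul_nonneg (hμ.nonneg r) (Nat.cast_nonneg _))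
  have hQ0 : 0 ≤ Q := sum_nonneg (fun r _ => mul_nonneg (hμ.nonneg r) (sqrtSupp_nonneg _))
  have hpow : ∀ a : ℕ, Real.logb 2 ((n : ℝ) ^ a) = a * L := by
    intro a
    rw [Real.logb_pow]
  have hn2 : (1000000 : ℝ) ≤ (n : ℝ) ^ 2 := by nlinarith
  have hn3 : (1000000000 : ℝ) ≤ (n : ℝ) ^ 3 := by nlinarith
  have hD : (((n ^ 3 + 2) ^ 2 : ℕ) : ℝ) = ((n : ℝ) ^ 3 + 2) ^ 2 := by push_cast; ring
  rw [hD] at h
  have h6 : (n : ℝ) ^ 6 = ((n : ℝ) ^ 3) ^ 2 := by ring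
  have hD2 : ((n : ℝ) ^ 3 + 2) ^ 2 ≤ (4 / 3) * (n : ℝ) ^ 6 := by
    rw [h6]
    nlinarith
  have h1 : Real.logb 2 (3 * ((n : ℝ) ^ 3 + 2) ^ 2) ≤ 7 * L := by
    have h2 : Real.logb 2 (3 * ((n : ℝ) ^ 3 + 2) ^ 2) ≤ Real.logb 2 (4 * (n : ℝ) ^ 6) :=
      Real.logb_le_logb_of_le (by norm_num) (by positivity) (by linarith)
    have h3 : Real.logb 2 (4 * (n : ℝ) ^ 6) = 2 + 6 * L := by
      rw [Real.logb_mul (by norm_num) (by positivity), hpow]
      have : Real.logb 2 4 = 2 := by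
        rw [show (4 : ℝ) = 2 ^ (2 : ℕ) by norm_num, Real.logb_pow, Real.logb_self_eq_one (by norm_num)]
        norm_num
      rw [this]
      norm_num
    rw [h3] at h2
    linarith
  have h2 : Real.logb 2 (((s : ℝ) + 1) * ((n : ℝ) ^ 3 + 2) ^ 2 * ((n : ℝ) ^ 2 + 1)) ≤ 11.2 * L := by
    have hs' : (s : ℝ) ≤ (n : ℝ) ^ 3 := by exact_mod_cast hs
    have hs0 : (0 : ℝ) ≤ (s : ℝ) := Nat.cast_nonneg _
    have h3 : ((s : ℝ) + 1) * ((n : ℝ) ^ 3 + 2) ^ 2 * ((n : ℝ) ^ 2 + 1) ≤ 2 * (n : ℝ) ^ 11 := by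
      have h4 : ((s : ℝ) + 1) ≤ 1.001 * (n : ℝ) ^ 3 := by linarith
      have h5 : (n : ℝ) ^ 2 + 1 ≤ 1.001 * (n : ℝ) ^ 2 := by linarith
      calc ((s : ℝ) + 1) * ((n : ℝ) ^ 3 + 2) ^ 2 * ((n : ℝ) ^ 2 + 1)
          ≤ (1.001 * (n : ℝ) ^ 3) * ((4 / 3) * (n : ℝ) ^ 6) * (1.001 * (n : ℝ) ^ 2) := by
            apply mul_le_mul _ h5 (by positivity) (by positivity)
            exact mul_le_mul h4 hD2 (by positivity) (by positivity)
        _ = (1.001 * (4 / 3) * 1.001) * (n : ℝ) ^ 11 := by ring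
        _ ≤ 2 * (n : ℝ) ^ 11 := by
            apply mul_le_mul_of_nonneg_right _ (by positivity)
            norm_num
    have h6 : Real.logb 2 (((s : ℝ) + 1) * ((n : ℝ) ^ 3 + 2) ^ 2 * ((n : ℝ) ^ 2 + 1)) ≤
        Real.logb 2 (2 * (n : ℝ) ^ 11) :=
      Real.logb_le_logb_of_le (by norm_num) (by positivity) h3
    have h7 : Real.logb 2 (2 * (n : ℝ) ^ 11) = 1 + 11 * L := by
      rw [Real.logb_mul (by norm_num) (by positivity), hpow, Real.logb_self_eq_one (by norm_num)]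
      norm_num
    rw [h7] at h6
    linarith
  have hR0 : 0 ≤ n * U + 16 * Q := by positivity
  have h3 : (n : ℝ) ^ 3 ≤ 13 * (n * (7 * L) + 11.2 * L * (n * U + 16 * Q)) := by
    refine h.trans ?_
    have a1 := mul_le_mul_of_nonneg_left h1 hn0.le
    have a2 := mul_le_mul_of_nonneg_right h2 hR0
    linarith
  have h4 : 1000 * ((n : ℝ) * L) ≤ (n : ℝ) ^ 3 := by
    have h5 : (n : ℝ) * L ≤ (n : ℝ) ^ 2 := by
      rw [sq]
      exact mul_le_mul_of_nonneg_left hLn hn0.le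
    nlinarith
  have h5 : (n : ℝ) * (600 * L * U) ≤ (n : ℝ) ^ 3 := by
    calc (n : ℝ) * (600 * L * U) ≤ n * (n : ℝ) ^ 2 := mul_le_mul_of_nonneg_left hU hn0.le
      _ = (n : ℝ) ^ 3 := by ring
  have h6 : 0 ≤ L * Q := by positivity
  nlinarith [h3, h4, h5, h6]

theorem gates_bound {n s : ℕ} (hn : 1000 ≤ n)
    {Ω : Type} [Fintype Ω] (μ : Ω → ℝ) (hμ : IsProb μ) (P : Ω → Circuit n s)
    (hP : ∀ r, Simple (P r).top)
    (hA : ApproximatesOn μ (fun r => (P r).eval) (fun _ => True) (diamThree n))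
    (hU : 600 * Real.logb 2 n * ∑ r, μ r * (P r).upper ≤ (n : ℝ) ^ 2) :
    (n : ℝ) ^ 2 * √(n : ℝ) ≤ 4000 * Real.logb 2 n * s := by
  obtain ⟨hL, hLn⟩ := log_bounds hn
  have hn' : (1000 : ℝ) ≤ n := by exact_mod_cast hn
  have hn0 : (0 : ℝ) < n := by linarith
  have hsq : 0 < √(n : ℝ) := Real.sqrt_pos.2 hn0
  have hsq2 : √(n : ℝ) * √(n : ℝ) = n := Real.mul_self_sqrt hn0.le
  by_cases hs : s ≤ n ^ 3
  · have h := mean_bound hn hs μ hμ P hP hA hU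
    have hQ : ∑ r, μ r * (P r).sqrtSupp ≤ s * √(n : ℝ) := by
      calc ∑ r, μ r * (P r).sqrtSupp ≤ ∑ r, μ r * (s * √(n : ℝ)) := by
            apply sum_le_sum
            intro r _
            exact mul_le_mul_of_nonneg_left (sqrtSupp_le _) (hμ.nonneg r)
        _ = s * √(n : ℝ) := by rw [← sum_mul, hμ.sum_one, one_mul]
    have h2 : (n : ℝ) ^ 3 ≤ 4000 * Real.logb 2 n * (s * √(n : ℝ)) :=
      h.trans (mul_le_mul_of_nonneg_left hQ (by positivity))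
    have h3 : ((n : ℝ) ^ 2 * √(n : ℝ)) * √(n : ℝ) ≤ (4000 * Real.logb 2 n * s) * √(n : ℝ) := by
      calc ((n : ℝ) ^ 2 * √(n : ℝ)) * √(n : ℝ) = (n : ℝ) ^ 2 * (√(n : ℝ) * √(n : ℝ)) := by ring
        _ = (n : ℝ) ^ 3 := by rw [hsq2]; ring
        _ ≤ _ := h2
        _ = _ := by ring
    exact le_of_mul_le_mul_right h3 hsq
  · push Not at hs
    have hs' : (n : ℝ) ^ 3 ≤ s := by exact_mod_cast hs.le
    have h1 : √(n : ℝ) ≤ n := by
      have h2 : 1 ≤ √(n : ℝ) := by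
        rw [Real.one_le_sqrt]
        linarith
      nlinarith
    have h3 : (n : ℝ) ^ 2 * √(n : ℝ) ≤ (n : ℝ) ^ 3 := by
      calc (n : ℝ) ^ 2 * √(n : ℝ) ≤ (n : ℝ) ^ 2 * n := mul_le_mul_of_nonneg_left h1 (by positivity)
        _ = (n : ℝ) ^ 3 := by ring
    have h4 : (1 : ℝ) ≤ 4000 * Real.logb 2 n := by linarith
    have h5 : (s : ℝ) ≤ 4000 * Real.logb 2 n * s := by
      have := mul_le_mul_of_nonneg_right h4 (Nat.cast_nonneg (α := ℝ) s)
      linarith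
    linarith

end Pool.Agent.L0h73.DI
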