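import Pool.Agent.L0h73.DI.Alive

set_option autoImplicit false

/-! # The sum over the questions -/

namespace Pool.Agent.L0h73.DI

open Finset Pool.Agent.L0h23.AD Pool.Agent.L0h73.LT

variable {n : ℕ}

theorem inp_flip (z : Fin n × Fin n → Bool) (i₀ : Fin n) (m : Fin n → Bool) (v : Fin n → Bits n)
    (y : Fin n × Fin n) : inp z i₀ (flip i₀ m, v) y = inp z i₀ (m, v) y := by
  funext i
  cases i with
  | none => rfl
  | some i =>
    rw [inp_some, inp_some]
    by_cases h : i = i₀
    · rw [if_pos h, if_pos h]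
    · rw [if_neg h, if_neg h]
      simp [flip, Function.update_of_ne h]

theorem alive_flip (T : Test n) (z : Fin n × Fin n → Bool) (i₀ : Fin n) (m : Fin n → Bool)
    (v : Fin n → Bits n) : Alive T z i₀ (flip i₀ m, v) ↔ Alive T z i₀ (m, v) := by
  unfold Alive
  simp only [inp_flip]

theorem half (g : (Fin n → Bool) → ℝ) (i₀ : Fin n) (t : Bool)
    (hg : ∀ m, g (flip i₀ m) = g m) :
    ∑ m, g m = 2 * ∑ m, (if m i₀ = t then g m else 0) := by
  have h1 : ∑ m, g m = ∑ m, (if m i₀ = t then g m else 0) + ∑ m, (if m i₀ = t then 0 else g m) := by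
    rw [← sum_add_distrib]
    apply sum_congr rfl
    intro m _
    split_ifs <;> ring
  have h2 : ∑ m, (if m i₀ = t then 0 else g m) = ∑ m, (if m i₀ = t then g m else 0) := by
    rw [← Equiv.sum_comp (flip i₀) (fun m => if m i₀ = t then 0 else g m)]
    apply sum_congr rfl
    intro m _
    rw [hg]
    have h3 : flip i₀ m i₀ = !m i₀ := by simp [flip]
    rw [h3]
    cases m i₀ <;> cases t <;> simp
  rw [h1, h2]
  ring

open Classical in
/-- the number of the cases in which the test is alive -/
theorem alive_count (T : Test n) (z : Fin n × Fin n → Bool) :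
    ∑ i₀ : Fin n, ((univ.filter (fun ω : Om n => Alive T z i₀ ω)).card : ℝ) ≤
      16 * √(T.supp : ℝ) * Fintype.card (Om n) := by
  have hmax : ∀ i : Fin n, ∃ e : Fin n ⊕ Fin n, ∀ e', |del T i e'| ≤ |del T i e| := by
    intro i
    obtain ⟨e, -, he⟩ := exists_max_image (univ : Finset (Fin n ⊕ Fin n)) (fun e => |del T i e|)
      ⟨.inl i, mem_univ _⟩
    exact ⟨e, fun e' => he e' (mem_univ _)⟩
  choose e he using hmax
  set d : Fin n → ℝ := fun i => |del T i (e i)| with hd
  set C : ℝ := ((Fintype.card (Fin n → Bits n) : ℕ) : ℝ) with hC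
  have hC0 : 0 ≤ C := Nat.cast_nonneg _
  set I : Finset (Fin n) := univ.filter (fun i => 0 < d i) with hI
  set g : Fin n → (Fin n → Bool) → ℝ := fun i₀ m =>
    ((univ.filter (fun v : Fin n → Bits n => Alive T z i₀ (m, v))).card : ℝ) with hg
  have hsplit : ∀ i₀ : Fin n, ((univ.filter (fun ω : Om n => Alive T z i₀ ω)).card : ℝ) =
      ∑ m, g i₀ m := by
    intro i₀
    simp only [hg]
    rw [card_filter, ← univ_product_univ, sum_product]
    push_cast
    apply sum_congr rfl
    intro m _
    rw [card_filter]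
    push_cast
    rfl
  have hflip : ∀ i₀ m, g i₀ (flip i₀ m) = g i₀ m := by
    intro i₀ m
    simp only [hg]
    congr 2
    apply filter_congr
    intro v _
    exact alive_flip T z i₀ m v
  set S : (Fin n → Bool) → Finset (Fin n) := fun m => I.filter (fun i => m i = mode (e i)) with hS
  have h1 : ∀ (i₀ : Fin n) (m : Fin n → Bool), (if m i₀ = mode (e i₀) then g i₀ m else 0) ≤
      if i₀ ∈ S m then 4 * (1 / √((((S m).filter (fun j => j ≠ i₀ ∧ d i₀ ≤ d j)).card : ℝ) + 1)) * C
        else 0 := by
    intro i₀ m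
    by_cases hm : m i₀ = mode (e i₀)
    · rw [if_pos hm]
      split_ifs with h
      · have h0 : i₀ ∈ I := (mem_filter.1 h).1
        rw [hI, mem_filter] at h0
        apply alive_one T z i₀ m e he h0.2
        intro i hi
        rw [mem_filter] at hi
        exact ⟨hi.2.1, (mem_filter.1 hi.1).2, hi.2.2⟩
      · have h2 : d i₀ = 0 := by
          have h3 : ¬ 0 < d i₀ := fun h3 => h (mem_filter.2 ⟨by rw [hI, mem_filter]; exact ⟨mem_univ _, h3⟩, hm⟩)
          exact le_antisymm (not_lt.1 h3) (abs_nonneg _)
        have h4 : univ.filter (fun v : Fin n → Bits n => Alive T z i₀ (m, v)) = ∅ := by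
          rw [filter_eq_empty_iff]
          rintro v - ⟨y, y', hne⟩
          apply hne
          have h5 : ∀ e', del T i₀ e' = 0 := by
            intro e'
            have := he i₀ e'
            simp only [hd] at h2
            rw [h2] at this
            exact abs_eq_zero.1 (le_antisymm this (abs_nonneg _))
          rw [eval_inp, eval_inp, part_qu, part_qu, h5, h5, h5, h5]
        simp only [hg]
        rw [h4]
        simp
    · rw [if_neg hm]
      split_ifs with h
      · positivity
      · exact le_rfl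
  have hsupp : I.card ≤ T.supp := by
    unfold Test.supp
    apply card_le_card
    intro i hi
    rw [hI, mem_filter] at hi
    rw [mem_filter]
    refine ⟨mem_univ _, e i, ?_⟩
    intro heq
    have h3 := hi.2
    simp only [hd] at h3
    have h4 : del T i (e i) = 0 := by
      cases h5 : e i with
      | inl k =>
        rw [h5] at heq
        exact heq
      | inr k =>
        rw [h5] at heq
        show - T.a i (.inr k) = 0
        rw [heq, neg_zero]
    rw [h4, abs_zero] at h3
    exact lt_irrefl _ h3
  have hanti : Antitone (fun r : ℕ => 1 / √((r : ℝ) + 1)) := by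
    intro a b hab
    apply one_div_le_one_div_of_le (Real.sqrt_pos.2 (by positivity))
    apply Real.sqrt_le_sqrt
    have : (a : ℝ) ≤ b := by exact_mod_cast hab
    linarith
  have h2 : ∀ m : Fin n → Bool, ∑ i₀ ∈ S m,
      (1 / √((((S m).filter (fun j => j ≠ i₀ ∧ d i₀ ≤ d j)).card : ℝ) + 1)) ≤ 2 * √(T.supp : ℝ) := by
    intro m
    have h3 := rank_sum d (fun r : ℕ => 1 / √((r : ℝ) + 1)) hanti (S m).card (S m) rfl
    refine h3.trans ((sum_inv_sqrt (S m).card).trans ?_)
    apply mul_le_mul_of_nonneg_left _ (by norm_num)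
    apply Real.sqrt_le_sqrt
    have h4 : (S m).card ≤ T.supp := (card_filter_le _ _).trans hsupp
    exact_mod_cast h4
  have hOm : ((Fintype.card (Om n) : ℕ) : ℝ) = ∑ _m : Fin n → Bool, C := by
    rw [sum_const, card_univ, nsmul_eq_mul, hC, Fintype.card_prod]
    push_cast
    rfl
  calc ∑ i₀ : Fin n, ((univ.filter (fun ω : Om n => Alive T z i₀ ω)).card : ℝ)
      = ∑ i₀ : Fin n, 2 * ∑ m, (if m i₀ = mode (e i₀) then g i₀ m else 0) := by
        apply sum_congr rfl
        intro i₀ _
        rw [hsplit, half (g i₀) i₀ (mode (e i₀)) (hflip i₀)]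
    _ ≤ ∑ i₀ : Fin n, 2 * ∑ m, (if i₀ ∈ S m then
          4 * (1 / √((((S m).filter (fun j => j ≠ i₀ ∧ d i₀ ≤ d j)).card : ℝ) + 1)) * C else 0) := by
        apply sum_le_sum
        intro i₀ _
        apply mul_le_mul_of_nonneg_left _ (by norm_num)
        exact sum_le_sum fun m _ => h1 i₀ m
    _ = ∑ m : Fin n → Bool, 8 * C * ∑ i₀ ∈ S m,
          (1 / √((((S m).filter (fun j => j ≠ i₀ ∧ d i₀ ≤ d j)).card : ℝ) + 1)) := by
        rw [← mul_sum, sum_comm, mul_sum]
        apply sum_congr rfl
        intro m _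
        rw [← sum_filter, mul_sum, mul_sum]
        have h5 : univ.filter (fun a => a ∈ S m) = S m := by ext; simp
        rw [h5]
        apply sum_congr rfl
        intro i _
        ring
    _ ≤ ∑ _m : Fin n → Bool, 8 * C * (2 * √(T.supp : ℝ)) :=
        sum_le_sum fun m _ => mul_le_mul_of_nonneg_left (h2 m) (by positivity)
    _ = 16 * √(T.supp : ℝ) * Fintype.card (Om n) := by
        rw [hOm, mul_sum]
        apply sum_congr rfl
        intro m _
        ring

end Pool.Agent.L0h73.DI
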