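import Pool.Agent.L0h73.LT.Defs
import Pool.Agent.L0h23.AD.Defs

set_option autoImplicit false

/-! # The diameter two or three: circuits of linear inequalities -/

namespace Pool.Agent.L0h73.DI

open Finset Pool.Agent.L0h23.AD

/-- A test: the inequality `θ b < ∑ a i c`, where the sum is taken over all adjacent vertices `x i` and
`y c`, and `b` is the list of the adjacencies of the vertices `z j` and `y c`. The coefficients `a i c`
and the function `θ` are arbitrary. -/
structure Test (n : ℕ) where
  a : Fin n → Fin n ⊕ Fin n → ℝ
  θ : (Fin n → Fin n ⊕ Fin n → Bool) → ℝ

/-- The part of the sum which comes from the neighbours `w` of the vertex `x i`. -/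
noncomputable def Test.part {n : ℕ} (T : Test n) (i : Fin n) (w : Fin n ⊕ Fin n → Bool) : ℝ :=
  ∑ c, if w c = true then T.a i c else 0

/-- The result of the test. -/
noncomputable def Test.eval {n : ℕ} (T : Test n) (x : ∀ i, Item n i) : Bool :=
  decide (T.θ (x none) < ∑ i, T.part i (x (some i)))

open Classical in
/-- How many vertices `x i` have an influence on the sum of the test? -/
noncomputable def Test.supp {n : ℕ} (T : Test n) : ℕ :=
  (univ.filter (fun i => ∃ c, T.a i c ≠ 0)).card

/-- A circuit with `s` gates. The gate `j` adds the coefficients `a i c` of the adjacent vertices `x i`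
and `y c` and the real weights `wt j i` of the gates `i < j` with the value `true`, and compares the
sum with a threshold, which is an arbitrary function of the adjacencies of the vertices `z j` and `y c`.
The output of the circuit is a function of these adjacencies and of the values of the gates. -/
structure Circuit (n s : ℕ) where
  gate : Fin s → Test n
  wt : Fin s → Fin s → ℝ
  top : (Fin n → Fin n ⊕ Fin n → Bool) → (Fin s → Bool) → Bool

/-- The value of the gate `j`. -/
noncomputable def Circuit.val {n s : ℕ} (C : Circuit n s) (x : ∀ i, Item n i) (j : Fin s) :
    Bool :=
  decide ((C.gate j).θ (x none) < ∑ i, (C.gate j).part i (x (some i)) +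
    ∑ i : Fin s, if h : i < j then (if C.val x i then C.wt j i else 0) else 0)
termination_by j.val
decreasing_by all_goals exact h

/-- The output of the circuit. -/
noncomputable def Circuit.eval {n s : ℕ} (C : Circuit n s) (x : ∀ i, Item n i) : Bool :=
  C.top (x none) (C.val x)

/-- The gate `j` has no wires from other gates. -/
def Circuit.Bottom {n s : ℕ} (C : Circuit n s) (j : Fin s) : Prop := ∀ i, i < j → C.wt j i = 0

open Classical in
/-- The number of the gates with wires from other gates. -/
noncomputable def Circuit.upper {n s : ℕ} (C : Circuit n s) : ℕ :=
  (univ.filter (fun j => ¬ C.Bottom j)).card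

open Classical in
/-- The sum over the gates without wires from other gates of the square root of the number of the
vertices `x i` which have an influence on the sum of the gate. -/
noncomputable def Circuit.sqrtSupp {n s : ℕ} (C : Circuit n s) : ℝ :=
  ∑ j ∈ univ.filter (fun j => C.Bottom j), √((C.gate j).supp : ℝ)

end Pool.Agent.L0h73.DI
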