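import Pool.Agent.L0h73.DI.Defs
import Pool.Agent.L0h23.AD.Diam

set_option autoImplicit false

/-! # The instances -/

namespace Pool.Agent.L0h73.DI

open Finset Pool.Agent.L0h23.AD

/-- the string `z` in the adjacencies of the vertices `z j` and `y c`; the vertex `y k₀` is adjacent to
all `z j` -/
def bm {n : ℕ} (k₀ : Fin n) (z : Fin n × Fin n → Bool) : Fin n → Fin n ⊕ Fin n → Bool := fun j c =>
  match c with
  | .inl k => decide (k = k₀) || !z (k, j)
  | .inr j' => decide (j' = j)

/-- the question for the bit `y` -/
def qu {n : ℕ} (y : Fin n × Fin n) : Fin n ⊕ Fin n → Bool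
  | .inl k => decide (k = y.1)
  | .inr j => decide (j ≠ y.2)

/-- the random bits -/
abbrev Bits (n : ℕ) : Type := (Fin n → Bool) × (Fin n → Bool)

/-- the junk at the other vertices -/
def junk {n : ℕ} (m : Bool) (v : Bits n) : Fin n ⊕ Fin n → Bool
  | .inl k => if m then v.1 k else true
  | .inr j => if m then true else v.2 j

/-- the random choices -/
abbrev Om (n : ℕ) : Type := (Fin n → Bool) × (Fin n → Bits n)

/-- the instances -/
def inp {n : ℕ} (z : Fin n × Fin n → Bool) (i₀ : Fin n) (ω : Om n) (y : Fin n × Fin n) :
    ∀ i, Item n i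
  | none => bm i₀ z
  | some i => if i = i₀ then qu y else junk (ω.1 i) (ω.2 i)

variable {n : ℕ} (z : Fin n × Fin n → Bool) (i₀ : Fin n) (ω : Om n) (y : Fin n × Fin n)

theorem inp_none : inp z i₀ ω y none = bm i₀ z := rfl

theorem inp_some (i : Fin n) :
    inp z i₀ ω y (some i) = if i = i₀ then qu y else junk (ω.1 i) (ω.2 i) := rfl

theorem diam_inp (hy : y.1 ≠ i₀) : diamThree n (inp z i₀ ω y) = z y := by
  rw [Bool.eq_iff_iff, diamThree_iff i₀]
  constructor
  · rintro ⟨i, j, h⟩
    rw [inp_none] at h
    by_cases hi : i = i₀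
    · rw [inp_some, if_pos hi] at h
      have h1 : j = y.2 := by
        by_contra h2
        apply h (.inr j)
        simp [qu, bm, h2]
      have h3 := h (.inl y.1)
      simp only [qu, bm, decide_true, true_and] at h3
      rw [h1] at h3
      simp only [hy, decide_false, Bool.false_or] at h3
      simpa using h3
    · exfalso
      rw [inp_some, if_neg hi] at h
      cases hm : ω.1 i
      · apply h (.inl i₀)
        simp [junk, bm, hm]
      · apply h (.inr j)
        simp [junk, bm, hm]
  · intro hz
    refine ⟨i₀, y.2, ?_⟩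
    rw [inp_none, inp_some, if_pos rfl]
    rintro c ⟨h1, h2⟩
    cases c with
    | inl k =>
      simp only [qu, decide_eq_true_eq] at h1
      subst h1
      simp only [bm, hy, decide_false, Bool.false_or] at h2
      rw [show ((y.1, y.2) : Fin n × Fin n) = y from rfl, hz] at h2
      simp at h2
    | inr j =>
      simp only [qu, decide_eq_true_eq] at h1
      simp only [bm, decide_eq_true_eq] at h2
      exact h1 h2

end Pool.Agent.L0h73.DI
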