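import Pool.Agent.L0h73.DI.Defs

set_option autoImplicit false

/-! # Some output functions -/

namespace Pool.Agent.L0h73.DI

open Finset Pool.Agent.TH697.Form Pool.Agent.TH697.Row

/-- The items which are read at the output: item `none` is the list `b` of the adjacencies of the
vertices `z j` and `y c`, and item `some j` is the value of the gate `j`. -/
abbrev TopItem (n s : ℕ) : Option (Fin s) → Type
  | none => Fin n → Fin n ⊕ Fin n → Bool
  | some _ => Bool

/-- The items. -/
def topItems {n s : ℕ} (b : Fin n → Fin n ⊕ Fin n → Bool) (u : Fin s → Bool) : ∀ i, TopItem n s i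
  | none => b
  | some j => u j

/-- The output is a threshold function, with arbitrary real weights, of the values of the gates (the
threshold may depend on the list `b` of the adjacencies of the vertices `z j` and `y c`), or a symmetric
function of the values of the gates (it may depend on `b`), or a formula over the full binary basis in
which every gate is read by at most one leaf, or a branching program with at most `n ^ 3` nodes in
which every gate is tested by at most one node. Other leaves and nodes may test arbitrary predicates
of `b`. -/
def Simple {n s : ℕ} (h : (Fin n → Fin n ⊕ Fin n → Bool) → (Fin s → Bool) → Bool) : Prop :=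
  (∃ (c : (Fin n → Fin n ⊕ Fin n → Bool) → ℝ) (w : Fin s → ℝ),
    ∀ b u, h b u = decide (c b < ∑ j, if u j then w j else 0)) ∨
  (∃ g : (Fin n → Fin n ⊕ Fin n → Bool) → ℕ → Bool,
    ∀ b u, h b u = g b (univ.filter (fun j => u j = true)).card) ∨
  (∃ F : Fml (Option (Fin s)) (TopItem n s), (∀ j, F.reads (some j) ≤ 1) ∧
    ∀ b u, h b u = F.eval (topItems b u)) ∨
  (∃ B : Program (Option (Fin s)) (TopItem n s) (n ^ 3), (∀ j, B.bp.reads (some j) ≤ 1) ∧
    ∀ b u, h b u = B.eval (topItems b u))

end Pool.Agent.L0h73.DI
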