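import Pool.Agent.L0h73.DI.TopDefs
import Pool.Agent.L0h73.LT.Tops

set_option autoImplicit false

/-! # The output functions have few subfunctions -/

namespace Pool.Agent.L0h73.DI

open Finset Pool.Agent.TH697.Form Pool.Agent.TH697.Row
open Pool.Agent.L0h73.LT (relF relF_eval relF_reads relB relB_val relB_reads side card_side sum_side
  FewSub chain)

/-- the two items after the change -/
abbrev Two (n s : ℕ) : Bool → Type := fun _ => (Fin n → Fin n ⊕ Fin n → Bool) × (Fin s → Bool)

/-- the projections -/
def proj {n s : ℕ} (A : Finset (Fin s)) : ∀ i, Two n s (side A i) → TopItem n s i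
  | none, d => d.1
  | some j, d => d.2 j

theorem items {n s : ℕ} (A : Finset (Fin s)) (b : Fin n → Fin n ⊕ Fin n → Bool) (ρ u : Fin s → Bool) :
    (fun i => proj (n := n) A i (Function.update (fun _ : Bool => ((b, ρ) : Two n s true)) true
      ((fun _ _ => false, u) : Two n s true) (side A i))) = topItems b (A.piecewise u ρ) := by
  funext i
  cases i with
  | none => simp [side, proj, topItems]
  | some j =>
    by_cases h : j ∈ A
    · simp [side, proj, topItems, h]
    · simp [side, proj, topItems, h]

theorem few_formula {n s : ℕ} (F : Fml (Option (Fin s)) (TopItem n s))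
    (hF : ∀ j, F.reads (some j) ≤ 1) :
    FewSub 16 (fun b u => F.eval (topItems b u)) := by
  classical
  intro A
  obtain ⟨S, hS1, hS2⟩ := subfunctions true (relF (D' := Two n s) (side A) (proj A) F)
  refine ⟨S.image (fun g u => g (fun _ _ => false, u)), ?_, ?_⟩
  · refine card_image_le.trans (hS1.trans ?_)
    rw [relF_reads]
    have h1 := sum_side A (fun i => F.reads i) hF
    calc 2 * 16 ^ (∑ i ∈ univ.filter (fun i => side A i = true), F.reads i)
        ≤ 16 * 16 ^ A.card := Nat.mul_le_mul (by norm_num) (Nat.pow_le_pow_right (by norm_num) h1)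
      _ = 16 ^ (A.card + 1) := by rw [pow_succ]; ring
  · intro b ρ
    rw [mem_image]
    refine ⟨_, hS2 (fun _ => (b, ρ)), ?_⟩
    funext u
    rw [relF_eval]
    exact congrArg F.eval (items A b ρ u)

theorem few_program {n s m : ℕ} (B : Program (Option (Fin s)) (TopItem n s) m)
    (hB : ∀ j, B.bp.reads (some j) ≤ 1) :
    FewSub ((m + 2) ^ 2) (fun b u => B.eval (topItems b u)) := by
  classical
  intro A
  obtain ⟨S, hS1, hS2⟩ := BP.subfunctions true (relB (D' := Two n s) (side A) (proj A) B.bp) B.start
  refine ⟨S.image (fun g u => g (fun _ _ => false, u)), ?_, ?_⟩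
  · refine card_image_le.trans (hS1.trans ?_)
    rw [relB_reads]
    have h1 := sum_side A (fun i => B.bp.reads i) hB
    rw [← pow_mul]
    calc (B.size + 2) ^ (2 * (∑ i ∈ univ.filter (fun i => side A i = true), B.bp.reads i) + 1)
        ≤ (m + 2) ^ (2 * (∑ i ∈ univ.filter (fun i => side A i = true), B.bp.reads i) + 1) :=
          Nat.pow_le_pow_left (by have := B.size_le; omega) _
      _ ≤ (m + 2) ^ (2 * (A.card + 1)) := Nat.pow_le_pow_right (by omega) (by omega)
  · intro b ρ
    rw [mem_image]
    refine ⟨_, hS2 (fun _ => (b, ρ)), ?_⟩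
    funext u
    rw [relB_val]
    exact congrArg (fun z => B.bp.val z B.start) (items A b ρ u)

theorem few_symmetric {n s : ℕ} (g : (Fin n → Fin n ⊕ Fin n → Bool) → ℕ → Bool) :
    FewSub 2 (fun b (u : Fin s → Bool) => g b (univ.filter (fun j => u j = true)).card) := by
  classical
  intro A
  refine ⟨(univ : Finset (Fin (A.card + 1) → Bool)).image (fun v u =>
    v ⟨(A.filter (fun j => u j = true)).card, Nat.lt_succ_of_le (card_filter_le _ _)⟩), ?_, ?_⟩
  · refine card_image_le.trans ?_
    rw [card_univ, Fintype.card_fun, Fintype.card_bool, Fintype.card_fin]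
  · intro b ρ
    rw [mem_image]
    refine ⟨fun t => g b (t + (Aᶜ.filter (fun j => ρ j = true)).card), mem_univ _, ?_⟩
    funext u
    have h : (univ.filter (fun j => A.piecewise u ρ j = true)).card =
        (A.filter (fun j => u j = true)).card + (Aᶜ.filter (fun j => ρ j = true)).card := by
      rw [← card_union_of_disjoint]
      · congr 1
        ext j
        simp only [mem_filter, mem_univ, true_and, mem_union, mem_compl]
        by_cases h : j ∈ A
        · simp [h]
        · simp [h]
      · rw [disjoint_left]
        intro j h1 h2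
        rw [mem_filter] at h1 h2
        exact (mem_compl.1 h2.1) h1.1
    simp only [h]

theorem few_threshold {n s : ℕ} (c : (Fin n → Fin n ⊕ Fin n → Bool) → ℝ) (w : Fin s → ℝ) :
    FewSub 2 (fun b (u : Fin s → Bool) => decide (c b < ∑ j, if u j then w j else 0)) := by
  classical
  intro A
  obtain ⟨Ch, h1, h2⟩ := chain (Y := (A → Bool)) (fun v => ∑ j : A, if v j then w j else 0)
  refine ⟨Ch.image (fun v u => v (fun j => u j)), ?_, ?_⟩
  · refine card_image_le.trans (h1.trans ?_)
    rw [Fintype.card_fun, Fintype.card_bool, Fintype.card_coe, pow_succ]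
    have : 1 ≤ 2 ^ A.card := Nat.one_le_two_pow
    omega
  · intro b ρ
    rw [mem_image]
    refine ⟨_, h2 (c b - ∑ j ∈ Aᶜ, if ρ j then w j else 0), ?_⟩
    funext u
    rw [decide_eq_decide]
    have h : (∑ j, if A.piecewise u ρ j then w j else 0) =
        (∑ j : A, if u j then w j else 0) + ∑ j ∈ Aᶜ, if ρ j then w j else 0 := by
      rw [← sum_add_sum_compl A]
      congr 1
      · rw [← sum_coe_sort A]
        apply sum_congr rfl
        intro j _
        rw [piecewise_eq_of_mem _ _ _ j.2]
      · apply sum_congr rfl
        intro j hj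
        rw [piecewise_eq_of_notMem _ _ _ (mem_compl.1 hj)]
    rw [h]
    constructor <;> intro h <;> linarith

theorem few_simple {n s : ℕ} (hn : 2 ≤ n) (h : (Fin n → Fin n ⊕ Fin n → Bool) → (Fin s → Bool) → Bool)
    (hs : Simple h) : FewSub ((n ^ 3 + 2) ^ 2) h := by
  have hn2 : 4 ≤ n ^ 3 := by
    calc 4 ≤ 2 ^ 3 := by norm_num
      _ ≤ n ^ 3 := Nat.pow_le_pow_left hn 3
  have hD : 36 ≤ (n ^ 3 + 2) ^ 2 := by nlinarith
  rcases hs with ⟨c, w, he⟩ | ⟨g, he⟩ | ⟨F, hF, he⟩ | ⟨B, hB, he⟩
  · have : h = fun b u => decide (c b < ∑ j, if u j then w j else 0) := by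
      funext b u
      exact he b u
    rw [this]
    exact (few_threshold c w).mono (by omega)
  · have : h = fun b u => g b (univ.filter (fun j => u j = true)).card := by
      funext b u
      exact he b u
    rw [this]
    exact (few_symmetric g).mono (by omega)
  · have : h = fun b u => F.eval (topItems b u) := by
      funext b u
      exact he b u
    rw [this]
    exact (few_formula F hF).mono (by omega)
  · have : h = fun b u => B.eval (topItems b u) := by
      funext b u
      exact he b u
    rw [this]
    exact few_program B hB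

end Pool.Agent.L0h73.DI
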